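import Pool.Agent.Helper78_NDM.Stmts

/-!
# NDM, module BCH: base change of spans
-/

set_option autoImplicit false
set_option linter.unusedVariables false
set_option linter.unusedSectionVars false

namespace Pool.Agent.NDM.H52

open Finset

section bch

variable {k : Type} [Field k] [Algebra k ℂ] {σ : Type} [Fintype σ]

/-- extension of scalars of vectors -/
noncomputable def ec : (σ → k) →ₗ[k] (σ → ℂ) where
  toFun := fun x l => algebraMap k ℂ (x l)
  map_add' := fun x y => by
    ext l
    simp
  map_smul' := fun r x => by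
    ext l
    simp [Algebra.smul_def]

theorem ec_apply (x : σ → k) (l : σ) : (ec x : σ → ℂ) l = algebraMap k ℂ (x l) := rfl

theorem ec_inj : Function.Injective (ec : (σ → k) → (σ → ℂ)) := by
  intro x y h
  ext l
  exact (algebraMap k ℂ).injective (congrFun h l)

theorem ec_mem {s : Set (σ → k)} {x : σ → k} (hx : x ∈ Submodule.span k s) :
    (ec x : σ → ℂ) ∈ Submodule.span ℂ ((ec : (σ → k) → (σ → ℂ)) '' s) := by
  have h1 : Submodule.span k s ≤
      ((Submodule.span ℂ ((ec : (σ → k) → (σ → ℂ)) '' s)).restrictScalars k).comap ec := by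
    rw [Submodule.span_le]
    intro y hy
    exact Submodule.subset_span ⟨y, hy, rfl⟩
  exact h1 hx

/-- functionals extend to complex vectors -/
theorem ec_li {κ : Type} {v : κ → (σ → k)} (h : LinearIndependent k v) :
    LinearIndependent ℂ (fun i => (ec (v i) : σ → ℂ)) := by
  classical
  obtain ⟨g, hg⟩ := LinearMap.exists_leftInverse_of_injective (Finsupp.linearCombination k v)
    (LinearMap.ker_eq_bot.2 h)
  have hg1 : ∀ i, g (v i) = Finsupp.single i 1 := by
    intro i
    have := congrArg (fun f => f (Finsupp.single i 1)) hg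
    simpa [Finsupp.linearCombination_single] using this
  have hg2 : ∀ i j, ∑ l, v i l * (g (Pi.single l 1) j) = if i = j then 1 else 0 := by
    intro i j
    have h1 : v i = ∑ l, v i l • (Pi.single l 1 : σ → k) := by
      ext t
      simp [Finset.sum_apply, Pi.single_apply]
    have h2 := congrArg (fun f => f j) (hg1 i)
    simp only [Finsupp.single_apply] at h2
    rw [← h2]
    conv_rhs => rw [h1]
    rw [map_sum, Finsupp.finsetSum_apply]
    refine Finset.sum_congr rfl fun l _ => ?_
    rw [map_smul]
    rfl
  have hg3 : ∀ i j, ∑ l, (ec (v i) : σ → ℂ) l * algebraMap k ℂ (g (Pi.single l 1) j) =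
      if i = j then 1 else 0 := by
    intro i j
    have h1 := congrArg (algebraMap k ℂ) (hg2 i j)
    rw [map_sum] at h1
    simp only [map_mul] at h1
    rw [apply_ite (algebraMap k ℂ), map_one, map_zero] at h1
    exact h1
  rw [linearIndependent_iff']
  intro s c hc j hj
  have h1 : ∑ l, (∑ i ∈ s, c i • (ec (v i) : σ → ℂ)) l * algebraMap k ℂ (g (Pi.single l 1) j) = 0 := by
    rw [hc]
    simp
  have h2 : ∑ l, (∑ i ∈ s, c i • (ec (v i) : σ → ℂ)) l * algebraMap k ℂ (g (Pi.single l 1) j) =
      ∑ i ∈ s, c i * ∑ l, (ec (v i) : σ → ℂ) l * algebraMap k ℂ (g (Pi.single l 1) j) := by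
    simp only [Finset.sum_apply, Pi.smul_apply, smul_eq_mul, Finset.sum_mul, Finset.mul_sum]
    rw [Finset.sum_comm]
    refine Finset.sum_congr rfl fun i _ => Finset.sum_congr rfl fun l _ => ?_
    ring
  rw [h2] at h1
  simp only [hg3] at h1
  simpa [hj] using h1

theorem ec_finrank (s : Set (σ → k)) :
    Module.finrank ℂ (Submodule.span ℂ ((ec : (σ → k) → (σ → ℂ)) '' s)) =
      Module.finrank k (Submodule.span k s) := by
  obtain ⟨b, hbs, hb, hli⟩ := exists_linearIndependent k s
  have h1 : Submodule.span ℂ ((ec : (σ → k) → (σ → ℂ)) '' s) =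
      Submodule.span ℂ (Set.range fun i : b => (ec (i : σ → k) : σ → ℂ)) := by
    apply le_antisymm
    · rw [Submodule.span_le]
      rintro _ ⟨x, hx, rfl⟩
      have h2 : x ∈ Submodule.span k b := by
        rw [hb]
        exact Submodule.subset_span hx
      have h3 := ec_mem h2
      have h4 : ((ec : (σ → k) → (σ → ℂ)) '' b) =
          Set.range fun i : b => (ec (i : σ → k) : σ → ℂ) := by
        ext y
        simp
      rw [h4] at h3
      exact h3
    · rw [Submodule.span_le]
      rintro _ ⟨i, rfl⟩
      exact Submodule.subset_span ⟨i, hbs i.2, rfl⟩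
  have hf : Finite b := hli.finite
  have := Fintype.ofFinite b
  have h5 : Module.finrank k (Submodule.span k s) = Fintype.card b := by
    rw [← hb]
    have h6 : b = Set.range ((↑) : b → (σ → k)) := by simp
    conv_lhs => rw [h6]
    exact finrank_span_eq_card hli
  rw [h5, h1]
  exact finrank_span_eq_card (ec_li hli)

end bch

theorem bch : BchStmt := by
  intro k _ _ σ ι _ L A B
  have h1 : ∀ S : Set ι, ((fun i l => algebraMap k ℂ (L i l)) '' S : Set (σ → ℂ)) =
      (ec : (σ → k) → (σ → ℂ)) '' (L '' S) := by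
    intro S
    rw [Set.image_image]
    rfl
  rw [h1, h1]
  refine ⟨ec_finrank _, fun h => ?_⟩
  rw [Submodule.disjoint_def] at h ⊢
  intro x hx1 hx2
  have h2 := h _ (ec_mem hx1) (ec_mem hx2)
  apply ec_inj
  rw [h2, map_zero]

end Pool.Agent.NDM.H52
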