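import Pool.Agent.Helper78_NDM.Stmts

/-!
# NDM, module GPT: the generic point of a closed subset
-/

set_option autoImplicit false
set_option linter.unusedVariables false
set_option linter.unusedSectionVars false

namespace Pool.Agent.NDM.H52

open Finset

section gpt

variable {k : Type} [Field k] [Algebra k ℂ] {σ : Type} [Fintype σ]

/-- values of polynomials of degree at most one -/
theorem aeval_lin (p : MvPolynomial σ k) (hp : p.totalDegree = 1) (x : σ → ℂ) :
    MvPolynomial.aeval x p = algebraMap k ℂ (MvPolynomial.coeff 0 p) +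
      ∑ l, algebraMap k ℂ (lpk p l) * x l := by
  classical
  have h1 : p.support ⊆ insert 0 (univ.image fun l : σ => Finsupp.single l 1) := by
    intro m hm
    have h2 := MvPolynomial.le_totalDegree hm
    rw [hp] at h2
    rw [Finset.mem_insert, Finset.mem_image]
    by_cases h3 : m = 0
    · exact Or.inl h3
    · right
      obtain ⟨l, hl⟩ := Finsupp.ne_iff.1 h3
      refine ⟨l, Finset.mem_univ _, ?_⟩
      have h4 : m = Finsupp.single l (m l) + m.erase l := (Finsupp.single_add_erase l m).symm
      have h5 : (m.sum fun _ e => e) = m l + ((m.erase l).sum fun _ e => e) := by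
        conv_lhs => rw [h4]
        rw [Finsupp.sum_add_index' (fun _ => rfl) (fun _ _ _ => rfl), Finsupp.sum_single_index rfl]
      have h6 : m l ≠ 0 := hl
      have h7 : m l = 1 := by omega
      have h8 : ((m.erase l).sum fun _ e => e) = 0 := by omega
      have h9 : m.erase l = 0 := by
        ext t
        rw [Finsupp.sum, Finset.sum_eq_zero_iff] at h8
        by_contra h10
        exact h10 (h8 t (Finsupp.mem_support_iff.2 h10))
      rw [h4, h9, h7, add_zero]
  have h2 : MvPolynomial.aeval x p = ∑ m ∈ insert 0 (univ.image fun l : σ => Finsupp.single l 1),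
      algebraMap k ℂ (MvPolynomial.coeff m p) * m.prod fun l e => x l ^ e := by
    rw [MvPolynomial.aeval_def, MvPolynomial.eval₂_eq']
    rw [Finset.sum_subset h1]
    · refine Finset.sum_congr rfl fun m _ => ?_
      rw [Finsupp.prod_fintype _ _ (fun i => pow_zero _)]
    · intro m _ hm
      rw [MvPolynomial.notMem_support_iff.1 hm, map_zero, zero_mul]
  rw [h2, Finset.sum_insert, Finset.sum_image]
  · simp [lpk]
  · intro a _ b _ hab
    exact Finsupp.single_left_injective one_ne_zero hab
  · simp

theorem aeval_add (p : MvPolynomial σ k) (hp : p.totalDegree = 1) (x v : σ → ℂ) (s : ℂ) :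
    MvPolynomial.aeval (fun l => x l + s * v l) p = MvPolynomial.aeval x p +
      s * ∑ l, algebraMap k ℂ (lpk p l) * v l := by
  rw [aeval_lin p hp, aeval_lin p hp, Finset.mul_sum, add_assoc, ← Finset.sum_add_distrib]
  congr 1
  refine Finset.sum_congr rfl fun l _ => ?_
  ring

/-- a direction in which the forms of `W` are constant and `y` is not -/
theorem exists_dir {ι : Type} (L : ι → σ → k) (W : Finset ι) (y : σ → k) (hy : y ∉ spn L W) :
    ∃ v : σ → ℂ, (∀ j ∈ W, ∑ l, algebraMap k ℂ (L j l) * v l = 0) ∧
      ∑ l, algebraMap k ℂ (y l) * v l ≠ 0 := by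
  classical
  obtain ⟨f, hf1, hf2⟩ := Submodule.exists_dual_map_eq_bot_of_notMem hy inferInstance
  have hf3 : ∀ x : σ → k, f x = ∑ l, x l * f (Pi.single l 1) := by
    intro x
    have h1 : x = ∑ l, x l • (Pi.single l 1 : σ → k) := by
      ext t
      simp [Finset.sum_apply, Pi.single_apply]
    conv_lhs => rw [h1]
    rw [map_sum]
    refine Finset.sum_congr rfl fun l _ => ?_
    rw [map_smul, smul_eq_mul]
  have hf4 : ∀ x : σ → k, ∑ l, algebraMap k ℂ (x l) * algebraMap k ℂ (f (Pi.single l 1)) =
      algebraMap k ℂ (f x) := by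
    intro x
    rw [hf3 x, map_sum]
    refine Finset.sum_congr rfl fun l _ => ?_
    rw [map_mul]
  refine ⟨fun l => algebraMap k ℂ (f (Pi.single l 1)), fun j hj => ?_, ?_⟩
  · rw [hf4]
    have h1 : f (L j) ∈ (spn L W).map f :=
      Submodule.mem_map_of_mem (Submodule.subset_span ⟨j, hj, rfl⟩)
    rw [hf2, Submodule.mem_bot] at h1
    rw [h1, map_zero]
  · rw [hf4]
    intro h
    exact hf1 ((algebraMap k ℂ).injective (by rw [h, map_zero]))

end gpt

theorem gpt : GptStmt := by
  classical
  intro k _ _ σ ι _ _ a ha z F W hz hW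
  have key : ∀ T : Finset ι, (∀ i ∈ T, i ∉ W) → ∃ z' : σ → ℂ,
      (∀ j ∈ W, MvPolynomial.aeval z' (a j) = 0) ∧ ∀ j ∈ T, MvPolynomial.aeval z' (a j) ≠ 0 := by
    intro T
    induction T using Finset.induction_on with
    | empty => exact fun _ => ⟨z, fun j hj => (hz j).2 (hW.1 hj), by simp⟩
    | insert i T hi ih =>
      intro hT
      obtain ⟨z', h1, h2⟩ := ih fun j hj => hT j (Finset.mem_insert_of_mem hj)
      by_cases h3 : MvPolynomial.aeval z' (a i) = 0
      · have h4 : ∃ v : σ → ℂ, (∀ j ∈ W, ∑ l, algebraMap k ℂ (lpk (a j) l) * v l = 0) ∧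
            ∑ l, algebraMap k ℂ (lpk (a i) l) * v l ≠ 0 := by
          by_cases hF : i ∈ F
          · refine exists_dir (fun i => lpk (a i)) W (lpk (a i)) fun h => ?_
            exact hT i (Finset.mem_insert_self _ _) (hW.2 i hF h)
          · refine ⟨fun l => z l - z' l, fun j hj => ?_, ?_⟩
            · have h5 := (hz j).2 (hW.1 hj)
              have h6 := h1 j hj
              rw [aeval_lin _ (ha j)] at h5 h6
              simp only [mul_sub, Finset.sum_sub_distrib]
              linear_combination h5 - h6
            · have h5 := fun h => hF ((hz i).1 h)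
              rw [aeval_lin _ (ha i)] at h5 h3
              intro h6
              apply h5
              simp only [mul_sub, Finset.sum_sub_distrib] at h6
              linear_combination h6 + h3
        obtain ⟨v, hv1, hv2⟩ := h4
        obtain ⟨s, hs⟩ := Infinite.exists_notMem_finset (insert (0 : ℂ) (T.image fun j =>
          -MvPolynomial.aeval z' (a j) / ∑ l, algebraMap k ℂ (lpk (a j) l) * v l))
        rw [Finset.mem_insert, not_or, Finset.mem_image] at hs
        refine ⟨fun l => z' l + s * v l, fun j hj => ?_, fun j hj => ?_⟩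
        · rw [aeval_add _ (ha j), h1 j hj, hv1 j hj, mul_zero, add_zero]
        · rw [aeval_add _ (ha j)]
          rcases Finset.mem_insert.1 hj with rfl | hj
          · rw [h3, zero_add]
            exact mul_ne_zero hs.1 hv2
          · intro h5
            by_cases h6 : ∑ l, algebraMap k ℂ (lpk (a j) l) * v l = 0
            · rw [h6, mul_zero, add_zero] at h5
              exact h2 j hj h5
            · apply hs.2
              refine ⟨j, hj, ?_⟩
              rw [div_eq_iff h6]
              linear_combination -h5
      · refine ⟨z', h1, fun j hj => ?_⟩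
        rcases Finset.mem_insert.1 hj with rfl | hj
        · exact h3
        · exact h2 j hj
  obtain ⟨z', h1, h2⟩ := key (univ \ W) fun i hi => (Finset.mem_sdiff.1 hi).2
  refine ⟨z', fun i => ⟨fun h => ?_, h1 i⟩⟩
  by_contra h3
  exact h2 i (Finset.mem_sdiff.2 ⟨Finset.mem_univ _, h3⟩) h

end Pool.Agent.NDM.H52
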